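import Pool.Agent.H63.Four.Defs
import Pool.Agent.H33.Four.Alg

set_option autoImplicit false

/-!
# MP_fe58d8_pr: four-leg formula, JOB FL2b (helper99): fusion recursions and degree bounds
-/

namespace Pool.Agent.H63.Four

open Pool.Agent.H51.TA Finset


namespace RecAux

/-! ### tuples -/

lemma cons1_eq {n : ℕ} (x : ℂ) (b : Fin (2 * n + 1) → ℂ) :
    cons1 x b = (Fin.cons x b : Fin (2 * n + 1 + 1) → ℂ) := rfl

lemma snoc1_eq {n : ℕ} (b : Fin (2 * n + 1) → ℂ) (x : ℂ) :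
    snoc1 b x = (Fin.snoc b x : Fin (2 * n + 1 + 1) → ℂ) := rfl

lemma cons3_eq {n : ℕ} (x y z : ℂ) (b : Fin (2 * n + 1) → ℂ) :
    cons3 x y z b = cons2 x y (cons1 z b) := rfl

lemma cons1_cons {n : ℕ} (x y : ℂ) (Z : Fin (2 * n) → ℂ) :
    cons1 x (Fin.cons y Z : Fin (2 * n + 1) → ℂ) = cons2 x y Z := rfl

lemma snoc1_cons {n : ℕ} (z x : ℂ) (Z : Fin (2 * n) → ℂ) :
    snoc1 (Fin.cons z Z : Fin (2 * n + 1) → ℂ) x =
      cons1 z (Fin.snoc Z x : Fin (2 * n + 1) → ℂ) := by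
  rw [snoc1_eq, cons1_eq]
  exact (Fin.cons_snoc_eq_snoc_cons z Z x).symm

/-- rotation of a general tuple -/
lemma cons_rot {L : ℕ} (x : ℂ) (b : Fin L → ℂ) :
    (Fin.cons x b : Fin (L + 1) → ℂ) ∘ finRotate (L + 1) = (Fin.snoc b x : Fin (L + 1) → ℂ) := by
  funext j
  refine Fin.lastCases ?_ (fun j => ?_) j
  · rw [Function.comp, finRotate_last, Fin.cons_zero, Fin.snoc_last]
  · rw [Function.comp, Fin.snoc_castSucc]
    have : finRotate (L + 1) j.castSucc = j.succ := by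
      have h := finRotate_mk (L := L + 1) j.1 (by omega)
      exact h
    rw [this, Fin.cons_succ]

lemma cons1_rot {n : ℕ} (x : ℂ) (Z : Fin (2 * n + 1) → ℂ) :
    cons1 x Z ∘ finRotate (2 * (n + 1)) = snoc1 Z x :=
  cons_rot x Z

lemma cons2_rot' {n : ℕ} (x0 x1 z : ℂ) (Z : Fin (2 * n + 1) → ℂ) :
    cons2 x0 x1 (cons1 z Z) ∘ finRotate (2 * (n + 1 + 1)) = cons2 x1 z (snoc1 Z x0) := by
  have h := cons_rot x0 (Fin.cons x1 (Fin.cons z Z : Fin (2 * n + 1 + 1) → ℂ) :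
    Fin (2 * n + 1 + 1 + 1) → ℂ)
  refine h.trans ?_
  rw [← Fin.cons_snoc_eq_snoc_cons, ← Fin.cons_snoc_eq_snoc_cons]
  rfl

/-! ### sums over patterns -/

/-- rotation of patterns as an equivalence -/
def rotE {L : ℕ} : Pat L ≃ Pat L := ⟨Pat.rot, Pat.rotInv, rotInv_rot, rot_rotInv⟩

lemma sum_rot {L : ℕ} [NeZero L] {X : (Fin L → ℂ) → Pat L → ℂ} (hX : ROT Set.univ X)
    (a : Fin L → ℂ) (g : Pat L → ℂ) :
    ∑ π, X (a ∘ finRotate L) π * g π = ∑ π, X a π * g π.rot := by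
  rw [← rotE.sum_comp]
  refine sum_congr rfl fun π _ => ?_
  have h1 : X (a ∘ finRotate L) (rotE π) = X a π := hX a (fun _ => Set.mem_univ _) π
  rw [h1]
  rfl

lemma sum_rotInv {L : ℕ} [NeZero L] {X : (Fin L → ℂ) → Pat L → ℂ} (hX : ROT Set.univ X)
    (a : Fin L → ℂ) (g : Pat L → ℂ) :
    ∑ π, X a π * g π = ∑ π, X (a ∘ finRotate L) π * g π.rotInv := by
  rw [sum_rot hX]
  refine sum_congr rfl fun π _ => ?_
  rw [rotInv_rot]

variable {Φ : Fam} (hΦ : ∀ (n : ℕ) [NeZero n], IsSol (Φ n))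

include hΦ

lemma sum_fused (n : ℕ) [NeZero n] {x y : ℂ} (h : D x y = 0) (b : Fin (2 * n) → ℂ)
    (g : Pat (2 * (n + 1)) → ℂ) :
    ∑ π, Φ (n + 1) (cons2 x y b) π * g π = kap x y b * ∑ α, Φ n b α * g (insN α) := by
  have hf := fused (Φ n) (hΦ n) (Φ (n + 1)) (hΦ (n + 1)) x y h b
  rw [FB.sum_insN _ _ hf.2, mul_sum]
  refine sum_congr rfl fun α _ => ?_
  rw [hf.1]
  ring

omit hΦ in
lemma kap_rot {L : ℕ} [NeZero L] (x y : ℂ) (b : Fin L → ℂ) :
    kap x y (b ∘ finRotate L) = kap x y b := by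
  unfold kap
  congr 1
  exact Equiv.prod_comp (finRotate L) (fun j => D y (b j) * D (b j) x)

/-- lower leg `x1` fused with its right neighbour -/
lemma low_right (n : ℕ) {x0 x1 z : ℂ} (hz : D x1 z = 0) (Z : Fin (2 * n + 1) → ℂ)
    (g : Pat (2 * (n + 1 + 1)) → ℂ) :
    ∑ π, Φ (n + 1 + 1) (cons2 x0 x1 (cons1 z Z)) π * g π =
      kap x1 z (cons1 x0 Z) * ∑ β, Φ (n + 1) (cons1 x0 Z) β * g (e 1 (insN β)) := by
  rw [sum_rotInv (hΦ (n + 1 + 1)).rot, cons2_rot', sum_fused hΦ (n + 1) hz, ← cons1_rot,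
    kap_rot, sum_rot (hΦ (n + 1)).rot]
  congr 1
  refine sum_congr rfl fun β _ => ?_
  rw [e_one_insN]

/-- leg fused with its left neighbour (the last entry) -/
lemma low_left (n : ℕ) {x0 x1 z : ℂ} (hz : D z x0 = 0) (Z : Fin (2 * n + 1) → ℂ)
    (g : Pat (2 * (n + 1 + 1)) → ℂ) :
    ∑ π, Φ (n + 1 + 1) (cons2 x0 x1 (snoc1 Z z)) π * g π =
      kap z x0 (cons1 x1 Z) * ∑ α, Φ (n + 1) (cons1 x1 Z) α * g (insN α).rot := by
  rw [← cons2_rot', sum_rot (hΦ (n + 1 + 1)).rot, sum_fused hΦ (n + 1) hz]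

/-- upper leg `y2` fused with its right neighbour -/
lemma up_right (n : ℕ) {y0 y1 y2 z : ℂ} (hz : D y2 z = 0) (Z : Fin (2 * n) → ℂ)
    (g : Pat (2 * (n + 1 + 1)) → ℂ) :
    ∑ π, Φ (n + 1 + 1) (cons3 y0 y1 y2 (Fin.cons z Z : Fin (2 * n + 1) → ℂ)) π * g π =
      kap y2 z (cons2 y0 y1 Z) * ∑ γ, Φ (n + 1) (cons2 y0 y1 Z) γ *
        g (insN γ.rot.rot).rotInv.rotInv := by
  rw [cons3_eq, sum_rotInv (hΦ (n + 1 + 1)).rot, cons2_rot', snoc1_cons,
    sum_rotInv (hΦ (n + 1 + 1)).rot, cons2_rot', sum_fused hΦ (n + 1) hz]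
  have e1 : cons2 y0 y1 Z ∘ finRotate (2 * (n + 1)) =
      cons1 y1 (Fin.snoc Z y0 : Fin (2 * n + 1) → ℂ) := by
    rw [← cons1_cons, cons1_rot, snoc1_cons]
  have e2 : (cons2 y0 y1 Z ∘ finRotate (2 * (n + 1))) ∘ finRotate (2 * (n + 1)) =
      snoc1 (Fin.snoc Z y0 : Fin (2 * n + 1) → ℂ) y1 := by
    rw [e1, cons1_rot]
  rw [← e2, kap_rot, kap_rot, sum_rot (hΦ (n + 1)).rot, sum_rot (hΦ (n + 1)).rot]

/-- upper leg `y0` fused with its left neighbour -/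
lemma up_left (n : ℕ) {y0 y1 y2 z : ℂ} (hz : D z y0 = 0) (Z : Fin (2 * n) → ℂ)
    (g : Pat (2 * (n + 1 + 1)) → ℂ) :
    ∑ π, Φ (n + 1 + 1) (cons3 y0 y1 y2 (Fin.snoc Z z : Fin (2 * n + 1) → ℂ)) π * g π =
      kap z y0 (cons2 y1 y2 Z) * ∑ γ, Φ (n + 1) (cons2 y1 y2 Z) γ * g (insN γ).rot := by
  rw [cons3_eq, ← snoc1_cons, low_left hΦ n hz, cons1_cons]

/-- lower functions of `G13`, left neighbour -/
lemma low1 (n : ℕ) (x z : ℂ) (Z : Fin (2 * n) → ℂ) (g : Pat (2 * (n + 1)) → ℂ) :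
    ∑ β, Φ (n + 1) (cons1 x (Fin.snoc Z z : Fin (2 * n + 1) → ℂ)) β * g β =
      ∑ δ, Φ (n + 1) (cons2 z x Z) δ * g δ.rot := by
  rw [← snoc1_cons, ← cons1_rot, cons1_cons, sum_rot (hΦ (n + 1)).rot]

omit hΦ in
lemma I4_congr {L L' : ℕ} {a b : Pat L} {c d : Pat L'} (h : FourLeg a b ↔ FourLeg c d) :
    I4 a b = I4 c d := by
  unfold I4
  by_cases hh : FourLeg a b
  · rw [if_pos hh, if_pos (h.1 hh)]
  · rw [if_neg hh, if_neg (fun h' => hh (h.2 h'))]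

omit hΦ in
lemma one_sub_cons2 {n : ℕ} (x y : ℂ) (b : Fin (2 * n) → ℂ) :
    (fun i => 1 - cons2 x y b i) = cons2 (1 - x) (1 - y) (fun j => 1 - b j) :=
  FB.cons2_refl x y b

omit hΦ in
lemma one_sub_cons1 {n : ℕ} (x : ℂ) (b : Fin (2 * n + 1) → ℂ) :
    (fun i => 1 - cons1 x b i) = cons1 (1 - x) (fun j => 1 - b j) := by
  funext i
  rcases i with ⟨i, hi⟩
  rcases i with _ | i <;> rfl

omit hΦ in
lemma one_sub_snoc {n : ℕ} (x : ℂ) (b : Fin n → ℂ) :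
    (fun i => 1 - (Fin.snoc b x : Fin (n + 1) → ℂ) i) =
      (Fin.snoc (fun j => 1 - b j) (1 - x) : Fin (n + 1) → ℂ) := by
  funext i
  refine Fin.lastCases ?_ (fun j => ?_) i
  · simp
  · simp

omit hΦ in
lemma one_sub_cons {n : ℕ} (x : ℂ) (b : Fin n → ℂ) :
    (fun i => 1 - (Fin.cons x b : Fin (n + 1) → ℂ) i) =
      (Fin.cons (1 - x) (fun j => 1 - b j) : Fin (n + 1) → ℂ) := by
  funext i
  refine Fin.cases ?_ (fun j => ?_) i
  · simp
  · simp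

omit hΦ in
lemma one_sub_cons3 {n : ℕ} (x y z : ℂ) (b : Fin (2 * n + 1) → ℂ) :
    (fun i => 1 - cons3 x y z b i) = cons3 (1 - x) (1 - y) (1 - z) (fun j => 1 - b j) := by
  rw [cons3_eq, one_sub_cons2]
  rw [cons3_eq]
  congr 1
  exact one_sub_cons1 z b

end RecAux

open RecAux

section FL2b

variable {Φ : Fam} (hΦ : ∀ (n : ℕ) [NeZero n], IsSol (Φ n))
include hΦ

/-- fusion of the lower leg `x1` with its right neighbour -/
theorem G22_rec_right (n : ℕ) (x0 x1 y0 y1 z : ℂ) (hz : D x1 z = 0) (Z : Fin (2 * n + 1) → ℂ) :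
    G22 Φ (n + 1) x0 x1 y0 y1 (cons1 z Z) =
      kap x1 z (cons1 x0 Z) * G13 Φ n x0 y0 y1 z Z := by
  unfold G22 G13
  have h := low_right hΦ n (x0 := x0) hz Z (fun π => ∑ π' : Pat (2 * (n + 1 + 1)),
    Φ (n + 1 + 1) (fun i => 1 - cons2 y0 y1 (cons1 z Z) i) π' * I4 π π')
  have he : ∀ π : Pat (2 * (n + 1 + 1)), ∑ π' : Pat (2 * (n + 1 + 1)),
      Φ (n + 1 + 1) (cons2 x0 x1 (cons1 z Z)) π *
        Φ (n + 1 + 1) (fun i => 1 - cons2 y0 y1 (cons1 z Z) i) π' * I4 π π' =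
      Φ (n + 1 + 1) (cons2 x0 x1 (cons1 z Z)) π * ∑ π' : Pat (2 * (n + 1 + 1)),
        Φ (n + 1 + 1) (fun i => 1 - cons2 y0 y1 (cons1 z Z) i) π' * I4 π π' := by
    intro π
    rw [mul_sum]
    exact sum_congr rfl fun π' _ => by ring
  simp only [he]
  rw [h]
  congr 1
  refine sum_congr rfl fun β _ => ?_
  rw [mul_sum]
  refine sum_congr rfl fun π' _ => ?_
  rw [cons3_eq]
  ring

/-- fusion of the lower leg `x0` with its left neighbour -/
theorem G22_rec_left (n : ℕ) (x0 x1 y0 y1 z : ℂ) (hz : D z x0 = 0) (Z : Fin (2 * n + 1) → ℂ) :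
    G22 Φ (n + 1) x0 x1 y0 y1 (snoc1 Z z) =
      kap z x0 (cons1 x1 Z) * G13 Φ n x1 z y0 y1 Z := by
  unfold G22 G13
  have h := low_left hΦ n (x1 := x1) hz Z (fun π => ∑ π' : Pat (2 * (n + 1 + 1)),
    Φ (n + 1 + 1) (fun i => 1 - cons2 y0 y1 (snoc1 Z z) i) π' * I4 π π')
  have he : ∀ π : Pat (2 * (n + 1 + 1)), ∑ π' : Pat (2 * (n + 1 + 1)),
      Φ (n + 1 + 1) (cons2 x0 x1 (snoc1 Z z)) π *
        Φ (n + 1 + 1) (fun i => 1 - cons2 y0 y1 (snoc1 Z z) i) π' * I4 π π' =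
      Φ (n + 1 + 1) (cons2 x0 x1 (snoc1 Z z)) π * ∑ π' : Pat (2 * (n + 1 + 1)),
        Φ (n + 1 + 1) (fun i => 1 - cons2 y0 y1 (snoc1 Z z) i) π' * I4 π π' := by
    intro π
    rw [mul_sum]
    exact sum_congr rfl fun π' _ => by ring
  simp only [he]
  rw [h]
  congr 1
  refine sum_congr rfl fun α _ => ?_
  have e2 : (fun i => 1 - cons2 y0 y1 (snoc1 Z z) i) =
      (fun i => 1 - cons3 z y0 y1 Z i) ∘ finRotate (2 * (n + 1 + 1)) := by
    have h3 : cons3 z y0 y1 Z ∘ finRotate (2 * (n + 1 + 1)) = cons2 y0 y1 (snoc1 Z z) := by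
      rw [cons3_eq, cons2_rot']
    rw [← h3]
    rfl
  rw [e2, sum_rot (hΦ (n + 1 + 1)).rot, mul_sum]
  refine sum_congr rfl fun ρ _ => ?_
  have h4 : I4 (insN α).rot ρ.rot = I4 (e 1 (insN α)) ρ :=
    I4_congr (four_rot (by omega) α ρ)
  rw [h4]
  ring

/-- fusion of the upper leg `y2` with its right neighbour -/
theorem G13_rec_right (n : ℕ) (x y0 y1 y2 z : ℂ) (hz : D z y2 = 0) (Z : Fin (2 * n) → ℂ) :
    G13 Φ n x y0 y1 y2 (Fin.cons z Z : Fin (2 * n + 1) → ℂ) =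
      kap z y2 (cons2 y0 y1 Z) * G22 Φ n x z y0 y1 Z := by
  unfold G22 G13
  rw [mul_sum]
  refine sum_congr rfl fun β _ => ?_
  have h1 : (fun i => 1 - cons3 y0 y1 y2 (Fin.cons z Z : Fin (2 * n + 1) → ℂ) i) =
      cons3 (1 - y0) (1 - y1) (1 - y2)
        (Fin.cons (1 - z) (fun j => 1 - Z j) : Fin (2 * n + 1) → ℂ) := by
    rw [one_sub_cons3]
    congr 1
    exact one_sub_cons z Z
  have h := up_right hΦ n (y0 := 1 - y0) (y1 := 1 - y1) (y2 := 1 - y2) (z := 1 - z)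
    (by rw [FB.D_refl]; exact hz) (fun j => 1 - Z j) (fun π' => I4 (e 1 (insN β)) π')
  rw [← one_sub_cons2 y0 y1 Z, FB.kap_refl] at h
  rw [h1]
  simp only [mul_assoc]
  rw [← mul_sum, h, mul_sum, mul_sum, mul_sum]
  refine sum_congr rfl fun γ _ => ?_
  have h4 : I4 (e 1 (insN β)) (insN γ.rot.rot).rotInv.rotInv = I4 β γ :=
    I4_congr (four_red_right (by omega) β γ)
  rw [h4, cons1_cons]
  ring

/-- fusion of the upper leg `y0` with its left neighbour -/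
theorem G13_rec_left (n : ℕ) (x y0 y1 y2 z : ℂ) (hz : D y0 z = 0) (Z : Fin (2 * n) → ℂ) :
    G13 Φ n x y0 y1 y2 (Fin.snoc Z z : Fin (2 * n + 1) → ℂ) =
      kap y0 z (cons2 y1 y2 Z) * G22 Φ n z x y1 y2 Z := by
  unfold G22 G13
  have h1 : (fun i => 1 - cons3 y0 y1 y2 (Fin.snoc Z z : Fin (2 * n + 1) → ℂ) i) =
      cons3 (1 - y0) (1 - y1) (1 - y2)
        (Fin.snoc (fun j => 1 - Z j) (1 - z) : Fin (2 * n + 1) → ℂ) := by
    rw [one_sub_cons3]
    congr 1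
    exact one_sub_snoc z Z
  have e0 : ∀ β : Pat (2 * (n + 1)), ∑ π' : Pat (2 * (n + 1 + 1)),
      Φ (n + 1) (cons1 x (Fin.snoc Z z : Fin (2 * n + 1) → ℂ)) β *
        Φ (n + 1 + 1) (fun i => 1 - cons3 y0 y1 y2 (Fin.snoc Z z : Fin (2 * n + 1) → ℂ) i) π' *
          I4 (e 1 (insN β)) π' =
      Φ (n + 1) (cons1 x (Fin.snoc Z z : Fin (2 * n + 1) → ℂ)) β *
        (kap y0 z (cons2 y1 y2 Z) * ∑ γ, Φ (n + 1) (fun i => 1 - cons2 y1 y2 Z i) γ *
          I4 (e 1 (insN β)) (insN γ).rot) := by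
    intro β
    have h := up_left hΦ n (y0 := 1 - y0) (y1 := 1 - y1) (y2 := 1 - y2) (z := 1 - z)
      (by rw [FB.D_refl]; exact hz) (fun j => 1 - Z j) (fun π' => I4 (e 1 (insN β)) π')
    rw [← one_sub_cons2 y1 y2 Z, FB.kap_refl] at h
    rw [← h, h1, mul_sum]
    exact sum_congr rfl fun π' _ => by ring
  simp only [e0]
  rw [low1 hΦ n x z Z (fun β => kap y0 z (cons2 y1 y2 Z) *
    ∑ γ, Φ (n + 1) (fun i => 1 - cons2 y1 y2 Z i) γ * I4 (e 1 (insN β)) (insN γ).rot), mul_sum]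
  refine sum_congr rfl fun δ _ => ?_
  rw [mul_sum, mul_sum, mul_sum]
  refine sum_congr rfl fun γ _ => ?_
  have h4 : I4 (e 1 (insN δ.rot)) (insN γ).rot = I4 δ γ :=
    I4_congr (four_red_left (by omega) δ γ)
  rw [h4]
  ring

/-- polynomial in the second lower leg -/
theorem G22_poly (n : ℕ) (x0 y0 y1 : ℂ) (Z : Fin (2 * n) → ℂ) :
    ∃ P : Polynomial ℂ, P.natDegree ≤ 2 * n + 1 ∧ ∀ t, G22 Φ n x0 t y0 y1 Z = P.eval t := by
  have h1 : ∀ π : Pat (2 * (n + 1)), ∃ p : Polynomial ℂ, p.natDegree ≤ 2 * n + 1 ∧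
      ∀ t, Φ (n + 1) (cons2 x0 t Z) π = p.eval t := by
    intro π
    obtain ⟨p, hp, hpe⟩ := pf_update ((hΦ (n + 1)).poly π) (cons2 x0 0 Z)
      (⟨1, by omega⟩ : Fin (2 * (n + 1)))
    refine ⟨p, by omega, fun t => ?_⟩
    rw [← hpe t]
    congr 1
    funext i
    rcases i with ⟨i, hi⟩
    rcases i with _ | _ | i
    · rw [Function.update_of_ne (show (⟨0, hi⟩ : Fin (2 * (n + 1))) ≠ ⟨1, by omega⟩ from fun h => by
        have := congrArg Fin.val h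
        simp only at this
        omega)]
      rfl
    · exact (Function.update_self (⟨1, by omega⟩ : Fin (2 * (n + 1))) t (cons2 x0 0 Z)).symm
    · rw [Function.update_of_ne (show (⟨i + 1 + 1, hi⟩ : Fin (2 * (n + 1))) ≠ ⟨1, by omega⟩ from
        fun h => by
        have := congrArg Fin.val h
        simp only at this
        omega)]
      rfl
  choose p hp hpe using h1
  refine ⟨∑ π : Pat (2 * (n + 1)), ∑ π' : Pat (2 * (n + 1)), p π *
    Polynomial.C (Φ (n + 1) (fun i => 1 - cons2 y0 y1 Z i) π' * I4 π π'), ?_, fun t => ?_⟩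
  · refine Polynomial.natDegree_sum_le_of_forall_le _ _ fun π _ => ?_
    refine Polynomial.natDegree_sum_le_of_forall_le _ _ fun π' _ => ?_
    exact (Polynomial.natDegree_mul_C_le _ _).trans (hp π)
  · unfold G22
    rw [Polynomial.eval_finsetSum]
    refine sum_congr rfl fun π _ => ?_
    rw [Polynomial.eval_finsetSum]
    refine sum_congr rfl fun π' _ => ?_
    rw [Polynomial.eval_mul, Polynomial.eval_C, ← hpe]
    ring

/-- polynomial in the third upper leg -/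
theorem G13_poly (n : ℕ) (x y0 y1 : ℂ) (Z : Fin (2 * n + 1) → ℂ) :
    ∃ P : Polynomial ℂ, P.natDegree ≤ 2 * n + 3 ∧ ∀ t, G13 Φ n x y0 y1 t Z = P.eval t := by
  have h1 : ∀ π : Pat (2 * (n + 1 + 1)), ∃ p : Polynomial ℂ, p.natDegree ≤ 2 * n + 3 ∧
      ∀ t, Φ (n + 1 + 1) (fun i => 1 - cons3 y0 y1 t Z i) π = p.eval t := by
    intro π
    obtain ⟨p, hp, hpe⟩ := pf_update ((hΦ (n + 1 + 1)).poly π) (fun i => 1 - cons3 y0 y1 0 Z i)
      (⟨2, by omega⟩ : Fin (2 * (n + 1 + 1)))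
    refine ⟨p.comp (1 - Polynomial.X), ?_, fun t => ?_⟩
    · refine Polynomial.natDegree_comp_le.trans ?_
      have h2 : (1 - Polynomial.X : Polynomial ℂ).natDegree ≤ 1 := by compute_degree
      calc p.natDegree * (1 - Polynomial.X : Polynomial ℂ).natDegree
          ≤ (2 * n + 3) * 1 := Nat.mul_le_mul (by omega) h2
        _ = 2 * n + 3 := by ring
    rw [Polynomial.eval_comp, Polynomial.eval_sub, Polynomial.eval_one, Polynomial.eval_X,
      ← hpe (1 - t)]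
    congr 1
    funext i
    rcases i with ⟨i, hi⟩
    rcases i with _ | _ | _ | i
    · rw [Function.update_of_ne (show (⟨0, hi⟩ : Fin (2 * (n + 1 + 1))) ≠ ⟨2, by omega⟩ from
        fun h => by
        have := congrArg Fin.val h
        simp only at this
        omega)]
      rfl
    · rw [Function.update_of_ne (show (⟨0 + 1, hi⟩ : Fin (2 * (n + 1 + 1))) ≠ ⟨2, by omega⟩ from
        fun h => by
        have := congrArg Fin.val h
        simp only at this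
        omega)]
      rfl
    · exact (Function.update_self (⟨2, by omega⟩ : Fin (2 * (n + 1 + 1))) (1 - t)
        (fun i => 1 - cons3 y0 y1 0 Z i)).symm
    · rw [Function.update_of_ne (show (⟨i + 1 + 1 + 1, hi⟩ : Fin (2 * (n + 1 + 1))) ≠
        ⟨2, by omega⟩ from fun h => by
        have := congrArg Fin.val h
        simp only at this
        omega)]
      rfl
  choose p hp hpe using h1
  refine ⟨∑ β : Pat (2 * (n + 1)), ∑ π' : Pat (2 * (n + 1 + 1)), p π' *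
    Polynomial.C (Φ (n + 1) (cons1 x Z) β * I4 (e 1 (insN β)) π'), ?_, fun t => ?_⟩
  · refine Polynomial.natDegree_sum_le_of_forall_le _ _ fun π _ => ?_
    refine Polynomial.natDegree_sum_le_of_forall_le _ _ fun π' _ => ?_
    exact (Polynomial.natDegree_mul_C_le _ _).trans (hp π')
  · unfold G13
    rw [Polynomial.eval_finsetSum]
    refine sum_congr rfl fun π _ => ?_
    rw [Polynomial.eval_finsetSum]
    refine sum_congr rfl fun π' _ => ?_
    rw [Polynomial.eval_mul, Polynomial.eval_C, ← hpe]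
    ring

end FL2b

end Pool.Agent.H63.Four
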